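import Pool.Agent.H8.TD.Targets

/-! Row GNX: multiplication by linear factors increases the Gauss norm. -/

set_option autoImplicit false

open MvPolynomial
open Pool.Agent.H12.ZD (pmap v O Res DenseOrbit NoInv)
open Pool.Agent.H18.HIT
open Pool.Agent.H8.ZA (HFam Const NA sz)
open Pool.Agent.H8.TD

namespace Pool.Agent.H77.TD

section

variable {k : Type} [Field k]

open Classical in
/-- the constants -/
noncomputable def Kf (w : AbsoluteValue k ℝ) (n : ℕ) : ℝ := if NA w then (if n = 0 then 0 else 1) else n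

theorem Kf_add (w : AbsoluteValue k ℝ) (n : ℕ) (B : ℝ) (a b : k) (hB : 0 ≤ B) (ha : w a ≤ B)
    (hb : w b ≤ Kf w n * B) : w (a + b) ≤ Kf w (n + 1) * B := by
  unfold Kf at *
  by_cases h : NA w
  · rw [if_pos h] at hb
    rw [if_pos h, if_neg (Nat.succ_ne_zero n), one_mul]
    refine (h a b).trans (max_le ha (hb.trans ?_))
    split_ifs
    · rw [zero_mul]; exact hB
    · rw [one_mul]
  · rw [if_neg h] at hb
    rw [if_neg h]
    refine (w.add_le a b).trans ?_
    push_cast
    linarith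

theorem Kf_mono (w : AbsoluteValue k ℝ) (n m : ℕ) (h : n ≤ m) : Kf w n ≤ Kf w m := by
  unfold Kf
  by_cases hw : NA w
  · rw [if_pos hw, if_pos hw]
    split_ifs with h1 h2
    · exact le_rfl
    · exact zero_le_one
    · omega
    · exact le_rfl
  · rw [if_neg hw, if_neg hw]
    exact_mod_cast h

theorem Kf_pos (w : AbsoluteValue k ℝ) (n : ℕ) : 1 ≤ Kf w (n + 1) := by
  unfold Kf
  by_cases h1 : NA w
  · rw [if_pos h1, if_neg (Nat.succ_ne_zero n)]
  · rw [if_neg h1]
    push_cast
    have : (0 : ℝ) ≤ n := Nat.cast_nonneg n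
    linarith

theorem deg_le {N : ℕ} (q : MvPolynomial (Fin N) k) (δ : ℕ) (hq : q.totalDegree ≤ δ)
    (γ : Fin N →₀ ℕ) (j : Fin N) (h : δ < γ j) : coeff γ q = 0 := by
  by_contra h0
  have h1 := le_totalDegree (mem_support_iff.2 h0)
  have h2 : γ j ≤ γ.sum fun _ e => e := by
    by_cases hs : j ∈ γ.support
    · exact Finset.single_le_sum (f := fun t => γ t) (fun _ _ => Nat.zero_le _) hs
    · rw [Finsupp.notMem_support_iff.1 hs]
      exact Nat.zero_le _
  omega

theorem coeff_succ {N : ℕ} (x : k) (q : MvPolynomial (Fin N) k) (j : Fin N) (γ : Fin N →₀ ℕ) :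
    coeff (Finsupp.single j 1 + γ) ((X j - C x) * q) =
      coeff γ q - x * coeff (Finsupp.single j 1 + γ) q := by
  rw [sub_mul, coeff_sub, coeff_C_mul, coeff_X_mul]

theorem coeff_zero' {N : ℕ} (x : k) (q : MvPolynomial (Fin N) k) (j : Fin N) (γ : Fin N →₀ ℕ)
    (h : γ j = 0) : coeff γ ((X j - C x) * q) = -(x * coeff γ q) := by
  rw [sub_mul, coeff_sub, coeff_C_mul, coeff_X_mul', if_neg]
  · rw [zero_sub]
  · rw [Finsupp.mem_support_iff, not_not]
    exact h

/-- large `x` -/
theorem step_large {N : ℕ} (w : AbsoluteValue k ℝ) (x : k) (hx : 1 ≤ w x)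
    (q : MvPolynomial (Fin N) k) (j : Fin N) (B : ℝ) (hB : 0 ≤ B)
    (h : ∀ γ, w (coeff γ ((X j - C x) * q)) ≤ B) :
    ∀ (n : ℕ) (γ : Fin N →₀ ℕ), γ j = n → w x * w (coeff γ q) ≤ Kf w (n + 1) * B := by
  intro n
  induction n with
  | zero =>
    intro γ hγ
    have h1 := h γ
    rw [coeff_zero' x q j γ hγ, w.map_neg, w.map_mul] at h1
    refine h1.trans ?_
    have h2 := Kf_pos w 0
    nlinarith
  | succ n ih =>
    intro γ hγ
    obtain ⟨γ', rfl⟩ : ∃ γ', γ = Finsupp.single j 1 + γ' := by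
      refine ⟨γ - Finsupp.single j 1, ?_⟩
      rw [add_tsub_cancel_of_le]
      rw [Finsupp.single_le_iff]
      omega
    have hγ' : γ' j = n := by
      rw [Finsupp.add_apply, Finsupp.single_eq_same] at hγ
      omega
    have h1 := h (Finsupp.single j 1 + γ')
    rw [coeff_succ] at h1
    have h2 := ih γ' hγ'
    have h3 : w (coeff γ' q) ≤ Kf w (n + 1) * B := by
      refine le_trans ?_ h2
      have := w.nonneg (coeff γ' q)
      nlinarith
    have h4 : x * coeff (Finsupp.single j 1 + γ') q =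
        -(coeff γ' q - x * coeff (Finsupp.single j 1 + γ') q) + coeff γ' q := by ring
    rw [← w.map_mul, h4]
    refine Kf_add w (n + 1) B _ _ hB ?_ h3
    rw [w.map_neg]
    exact h1

/-- small `x` -/
theorem step_small {N : ℕ} (w : AbsoluteValue k ℝ) (x : k) (hx : w x ≤ 1)
    (q : MvPolynomial (Fin N) k) (δ : ℕ) (hq : q.totalDegree ≤ δ) (j : Fin N) (B : ℝ) (hB : 0 ≤ B)
    (h : ∀ γ, w (coeff γ ((X j - C x) * q)) ≤ B) :
    ∀ (n : ℕ) (γ : Fin N →₀ ℕ), γ j + n = δ + 1 → w (coeff γ q) ≤ Kf w n * B := by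
  intro n
  induction n with
  | zero =>
    intro γ hγ
    rw [deg_le q δ hq γ j (by omega), w.map_zero]
    unfold Kf
    by_cases hw : NA w
    · rw [if_pos hw, if_pos rfl, zero_mul]
    · rw [if_neg hw, Nat.cast_zero, zero_mul]
  | succ n ih =>
    intro γ hγ
    have h1 := h (Finsupp.single j 1 + γ)
    rw [coeff_succ] at h1
    have h2 := ih (Finsupp.single j 1 + γ) (by
      rw [Finsupp.add_apply, Finsupp.single_eq_same]; omega)
    have h3 : w (x * coeff (Finsupp.single j 1 + γ) q) ≤ Kf w n * B := by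
      rw [w.map_mul]
      refine le_trans ?_ h2
      have := w.nonneg (coeff (Finsupp.single j 1 + γ) q)
      nlinarith
    have h4 : coeff γ q = (coeff γ q - x * coeff (Finsupp.single j 1 + γ) q) +
        x * coeff (Finsupp.single j 1 + γ) q := by ring
    rw [h4]
    exact Kf_add w n B _ _ hB h1 h3

/-- one factor -/
theorem step_one {N : ℕ} (w : AbsoluteValue k ℝ) (x : k) (q : MvPolynomial (Fin N) k) (δ : ℕ)
    (hq : q.totalDegree ≤ δ) (j : Fin N) (B : ℝ) (hB : 0 ≤ B)
    (h : ∀ γ, w (coeff γ ((X j - C x) * q)) ≤ B) (γ : Fin N →₀ ℕ) :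
    max 1 (w x) * w (coeff γ q) ≤ Kf w (δ + 1) * B := by
  by_cases h0 : coeff γ q = 0
  · rw [h0, w.map_zero, mul_zero]
    exact mul_nonneg (by linarith [Kf_pos w δ]) hB
  have hγ : γ j ≤ δ := by
    by_contra hc
    exact h0 (deg_le q δ hq γ j (by omega))
  rcases le_total 1 (w x) with hx | hx
  · rw [max_eq_right hx]
    refine (step_large w x hx q j B hB h _ γ rfl).trans ?_
    exact mul_le_mul_of_nonneg_right (Kf_mono w _ _ (by omega)) hB
  · rw [max_eq_left hx, one_mul]
    refine (step_small w x hx q δ hq j B hB h (δ + 1 - γ j) γ (by omega)).trans ?_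
    exact mul_le_mul_of_nonneg_right (Kf_mono w _ _ (by omega)) hB

/-- several factors -/
theorem step_all {N : ℕ} (w : AbsoluteValue k ℝ) (x : k) (q : MvPolynomial (Fin N) k) (δ : ℕ)
    (hq : q.totalDegree ≤ δ) (s : Finset (Fin N)) : ∀ (B : ℝ), 0 ≤ B →
    (∀ γ, w (coeff γ ((∏ j ∈ s, (X j - C x)) * q)) ≤ B) → ∀ γ : Fin N →₀ ℕ,
    max 1 (w x) ^ s.card * w (coeff γ q) ≤ Kf w (δ + N + 1) ^ s.card * B := by
  classical
  have hK := Kf_pos w (δ + N)
  induction s using Finset.induction_on with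
  | empty =>
    intro B _ h γ
    simpa using h γ
  | insert a s ha ih =>
    intro B hB h γ
    have hdeg : ((∏ j ∈ s, (X j - C x)) * q).totalDegree ≤ δ + N := by
      refine (totalDegree_mul _ _).trans ?_
      have h1 : (∏ j ∈ s, (X j - C x : MvPolynomial (Fin N) k)).totalDegree ≤ s.card := by
        refine (totalDegree_finsetProd _ _).trans ?_
        refine (Finset.sum_le_card_nsmul _ _ 1 fun j _ => ?_).trans (by simp)
        refine (totalDegree_sub _ _).trans (max_le ?_ ?_)
        · rw [totalDegree_X]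
        · rw [totalDegree_C]
          omega
      have h2 : s.card ≤ N := by
        have := Finset.card_le_univ s
        rwa [Fintype.card_fin] at this
      omega
    have h1 := step_one w x ((∏ j ∈ s, (X j - C x)) * q) (δ + N) hdeg a B hB (fun γ => by
      have e : (∏ j ∈ insert a s, (X j - C x)) = (X a - C x : MvPolynomial (Fin N) k) *
          ∏ j ∈ s, (X j - C x) := Finset.prod_insert ha
      rw [← mul_assoc, ← e]
      exact h γ)
    have hm : 0 < max 1 (w x) := lt_of_lt_of_le one_pos (le_max_left _ _)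
    have h2 : ∀ γ, w (coeff γ ((∏ j ∈ s, (X j - C x)) * q)) ≤
        Kf w (δ + N + 1) * B / max 1 (w x) := by
      intro γ
      rw [le_div_iff₀ hm, mul_comm]
      exact h1 γ
    have h3 := ih (Kf w (δ + N + 1) * B / max 1 (w x)) (by positivity) h2 γ
    rw [Finset.card_insert_of_notMem ha, pow_succ, pow_succ]
    calc max 1 (w x) ^ s.card * max 1 (w x) * w (coeff γ q) =
          (max 1 (w x) ^ s.card * w (coeff γ q)) * max 1 (w x) := by ring
      _ ≤ (Kf w (δ + N + 1) ^ s.card * (Kf w (δ + N + 1) * B / max 1 (w x))) * max 1 (w x) :=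
          mul_le_mul_of_nonneg_right h3 hm.le
      _ = _ := by field_simp

/-- the maximum is attained -/
theorem exists_max {N : ℕ} (w : AbsoluteValue k ℝ) (P : MvPolynomial (Fin N) k) :
    ∃ γ', ∀ γ, w (coeff γ P) ≤ w (coeff γ' P) := by
  by_cases hP : P = 0
  · refine ⟨0, fun γ => ?_⟩
    rw [hP, coeff_zero, coeff_zero]
  · have hne : P.support.Nonempty := by
      rw [Finset.nonempty_iff_ne_empty, Ne, support_eq_empty]
      exact hP
    obtain ⟨γ', _, hmax⟩ := Finset.exists_max_image P.support (fun γ => w (coeff γ P)) hne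
    refine ⟨γ', fun γ => ?_⟩
    by_cases hγ : coeff γ P = 0
    · rw [hγ, w.map_zero]
      exact w.nonneg _
    · exact hmax γ (mem_support_iff.2 hγ)

end

theorem pf_GNX : T_GNX := by
  intro k _ N δ w
  have hK := Kf_pos w (δ + N)
  have hK0 : 0 < Kf w (δ + N + 1) := by linarith
  refine ⟨(Kf w (δ + N + 1) ^ N)⁻¹, by positivity, inv_le_one_of_one_le₀ (one_le_pow₀ hK), ?_, ?_⟩
  · intro h
    have e : Kf w (δ + N + 1) = 1 := by
      unfold Kf
      rw [if_pos h, if_neg (by omega)]
    rw [e, one_pow, inv_one]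
  · intro x q hq γ
    obtain ⟨γ', hγ'⟩ := exists_max w ((∏ j, (X j - C x)) * q)
    refine ⟨γ', ?_⟩
    have h := step_all w x q δ hq Finset.univ _ (w.nonneg _) hγ' γ
    rw [Finset.card_univ, Fintype.card_fin] at h
    rw [mul_assoc, inv_mul_le_iff₀ (by positivity)]
    exact h

end Pool.Agent.H77.TD
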