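import Pool.Agent.H8.TD.Targets

/-! Row RL0: algebraic relations between a function and its iterates on a curve. -/

set_option autoImplicit false

open MvPolynomial
open Pool.Agent.H12.ZD (pmap v O Res DenseOrbit NoInv)
open Pool.Agent.H18.HIT
open Pool.Agent.H8.ZA (HFam Const NA sz)
open Pool.Agent.H8.TD

namespace Pool.Agent.H77.TD

open IntermediateField in
theorem fin_adj {k K : Type} [Field k] [Field K] [Algebra k K] (x y : K)
    (hfin : FiniteDimensional (adjoin k {x}) K) (hy : Transcendental k y) :
    FiniteDimensional (adjoin k {y}) K := by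
  have hx : Transcendental k x := by
    intro hx
    have h1 : FiniteDimensional k (adjoin k {x}) := adjoin.finiteDimensional hx.isIntegral
    have h2 : FiniteDimensional k K := FiniteDimensional.trans k (adjoin k {x}) K
    exact hy (Algebra.IsAlgebraic.isAlgebraic y)
  have h1 : IsAlgebraic (adjoin k {y}) x :=
    isAlgebraic_adjoin_iff.mpr (.adjoin_singleton hx hy
      (isAlgebraic_adjoin_iff.mp (Algebra.IsAlgebraic.isAlgebraic y)))
  have h2 : FiniteDimensional (adjoin k {y}) (adjoin (adjoin k {y}) {x}) :=
    adjoin.finiteDimensional h1.isIntegral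
  have h3 : adjoin k {x} ≤ (adjoin (adjoin k {y}) {x}).restrictScalars k := by
    rw [adjoin_le_iff, Set.singleton_subset_iff]
    exact mem_adjoin_simple_self (adjoin k {y}) x
  have h4 : FiniteDimensional ((adjoin (adjoin k {y}) {x}).restrictScalars k) K := by
    let _ : Algebra (adjoin k {x}) ((adjoin (adjoin k {y}) {x}).restrictScalars k) :=
      (inclusion h3).toAlgebra
    have : IsScalarTower (adjoin k {x}) ((adjoin (adjoin k {y}) {x}).restrictScalars k) K :=
      IsScalarTower.of_algebraMap_eq fun _ => rfl
    exact FiniteDimensional.right (adjoin k {x}) _ K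
  have h5 : FiniteDimensional (adjoin (adjoin k {y}) {x}) K := h4
  exact FiniteDimensional.trans (adjoin k {y}) (adjoin (adjoin k {y}) {x}) K

/-- the degree over the image of a subfield -/
theorem finrank_map {k K : Type} [Field k] [Field K] [Algebra k K] (τ : K →ₐ[k] K)
    (L : IntermediateField k K) :
    Module.finrank (L.map τ) K = Module.finrank τ.fieldRange K * Module.finrank L K := by
  have hle : L.map τ ≤ τ.fieldRange := by
    rintro _ ⟨x, _, rfl⟩
    exact ⟨x, rfl⟩
  let _ : Algebra (L.map τ) τ.fieldRange := (IntermediateField.inclusion hle).toAlgebra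
  have hst : IsScalarTower (L.map τ) τ.fieldRange K :=
    IsScalarTower.of_algebraMap_eq fun _ => rfl
  have h1 := Module.finrank_mul_finrank (L.map τ) τ.fieldRange K
  have h2 : Module.finrank L K = Module.finrank (L.map τ) τ.fieldRange := by
    refine Algebra.finrank_eq_of_equiv_equiv (L.equivMap τ).toRingEquiv
      (AlgEquiv.ofInjectiveField τ).toRingEquiv ?_
    ext x
    rfl
  rw [← h1, ← h2, mul_comm]

theorem dg_map {k K : Type} [Field k] [Field K] [Algebra k K] (τ : K →ₐ[k] K) (S : Set K) :
    dg k (τ '' S) = Module.finrank τ.fieldRange K * dg k S := by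
  unfold dg
  rw [← IntermediateField.adjoin_map, finrank_map]

theorem dg_iter {k K : Type} [Field k] [Field K] [Algebra k K] (τ : K →ₐ[k] K) (φ : K) (n : ℕ) :
    dg k {τ^[n] φ} = Module.finrank τ.fieldRange K ^ n * dg k {φ} := by
  induction n with
  | zero => simp
  | succ n ih =>
    have h := dg_map τ {τ^[n] φ}
    rw [Set.image_singleton, ih] at h
    rw [Function.iterate_succ_apply', h, pow_succ]
    ring

/-- common denominators -/
theorem common_den {k K : Type} [Field k] [Field K] [Algebra k K] (w : K) (x : ℕ → K)
    (hx : ∀ i, x i ∈ IntermediateField.adjoin k {w}) (n : ℕ) :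
    ∃ b : Polynomial k, Polynomial.aeval w b ≠ 0 ∧ ∀ i < n, ∃ a : Polynomial k,
      x i * Polynomial.aeval w b = Polynomial.aeval w a := by
  induction n with
  | zero => exact ⟨1, by simp, fun i hi => absurd hi (Nat.not_lt_zero i)⟩
  | succ n ih =>
    obtain ⟨b, hb, hi⟩ := ih
    obtain ⟨r, s, hrs⟩ := (IntermediateField.mem_adjoin_simple_iff k (x n)).1 (hx n)
    by_cases hs : Polynomial.aeval w s = 0
    · refine ⟨b, hb, fun i hi' => ?_⟩
      rcases Nat.lt_succ_iff_lt_or_eq.1 hi' with h | h
      · exact hi i h
      · refine ⟨0, ?_⟩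
        rw [h, hrs, hs, div_zero, zero_mul, map_zero]
    · refine ⟨b * s, ?_, fun i hi' => ?_⟩
      · rw [map_mul]
        exact mul_ne_zero hb hs
      · rcases Nat.lt_succ_iff_lt_or_eq.1 hi' with h | h
        · obtain ⟨a, ha⟩ := hi i h
          refine ⟨a * s, ?_⟩
          rw [map_mul, map_mul, ← ha]
          ring
        · refine ⟨r * b, ?_⟩
          rw [h, hrs, map_mul, map_mul]
          field_simp

theorem pf_RL0 : T_RL0 := by
  intro k K _ _ _ _ τ e t φ ⟨y, hy⟩ hτ he
  by_cases hφ : Transcendental k φ
  · -- transcendental case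
    have hfin : FiniteDimensional (IntermediateField.adjoin k {φ}) K := fin_adj y φ hy hφ
    refine ⟨dg k {φ}, fun n => ?_⟩
    have hd := dg_iter τ φ n
    have hpos : 0 < dg k {τ^[n] φ} := by
      rw [hd]
      exact Nat.mul_pos (pow_pos Module.finrank_pos n) Module.finrank_pos
    set w : K := τ^[n] φ with hw
    have hfw : FiniteDimensional (IntermediateField.adjoin k {w}) K :=
      FiniteDimensional.of_finrank_pos hpos
    set p : Polynomial (IntermediateField.adjoin k {w}) :=
      minpoly (IntermediateField.adjoin k {w}) t with hp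
    have hint : IsIntegral (IntermediateField.adjoin k {w}) t :=
      (Algebra.IsAlgebraic.isAlgebraic t).isIntegral
    have hmon : p.Monic := minpoly.monic hint
    have hdeg : p.natDegree ≤ dg k {φ} * e ^ n := by
      refine (minpoly.natDegree_le t).trans ?_
      change dg k {w} ≤ _
      rw [hd, mul_comm]
      exact Nat.mul_le_mul_left _ (Nat.pow_le_pow_left he n)
    obtain ⟨b, hb, hab⟩ := common_den w (fun i => ((p.coeff i : IntermediateField.adjoin k {w}) : K))
      (fun i => (p.coeff i).2) (p.natDegree + 1)
    choose! a ha using hab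
    set r := p.natDegree with hr
    -- the polynomial
    set G : Polynomial (Polynomial k) := ∑ i ∈ Finset.range (r + 1),
      (a i).map Polynomial.C * Polynomial.C (Polynomial.X ^ i) with hG
    have hcoef : ∀ j, G.coeff j = ∑ i ∈ Finset.range (r + 1),
        Polynomial.C ((a i).coeff j) * Polynomial.X ^ i := by
      intro j
      rw [hG, Polynomial.finsetSum_coeff]
      refine Finset.sum_congr rfl fun i _ => ?_
      rw [Polynomial.coeff_mul_C, Polynomial.coeff_map]
    refine ⟨G, ?_, ?_, ?_⟩
    · intro h0
      have h1 : ∀ j, (a r).coeff j = 0 := by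
        intro j
        have h2 := hcoef j
        rw [h0, Polynomial.coeff_zero] at h2
        have h3 := congrArg (fun q => Polynomial.coeff q r) h2
        simp only [Polynomial.coeff_zero, Polynomial.finsetSum_coeff,
          Polynomial.coeff_C_mul_X_pow] at h3
        rw [Finset.sum_ite_eq, if_pos (Finset.mem_range.2 (Nat.lt_succ_self r))] at h3
        exact h3.symm
      have h2 : a r = 0 := Polynomial.ext fun j => by rw [h1 j, Polynomial.coeff_zero]
      have h3 := ha r (Nat.lt_succ_self r)
      have h4 : p.coeff r = 1 := hmon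
      rw [h2, map_zero, h4] at h3
      simp only [OneMemClass.coe_one, one_mul] at h3
      exact hb h3
    · intro j
      rw [hcoef]
      refine (Polynomial.natDegree_sum_le_of_forall_le _ _ (n := r) fun i hi => ?_).trans hdeg
      refine (Polynomial.natDegree_C_mul_X_pow_le _ _).trans ?_
      have := Finset.mem_range.1 hi
      omega
    · have hval : Polynomial.eval₂ (Polynomial.aeval t : Polynomial k →ₐ[k] K).toRingHom w G =
          ∑ i ∈ Finset.range (r + 1), Polynomial.aeval w (a i) * t ^ i := by
        rw [hG, Polynomial.eval₂_finsetSum]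
        refine Finset.sum_congr rfl fun i _ => ?_
        rw [Polynomial.eval₂_mul, Polynomial.eval₂_C, Polynomial.eval₂_map]
        congr 1
        · rw [Polynomial.aeval_def]
          congr 1
          ext c
          simp
        · simp
      rw [hval]
      have h1 : ∀ i ∈ Finset.range (r + 1), Polynomial.aeval w (a i) * t ^ i =
          Polynomial.aeval w b * (((p.coeff i : IntermediateField.adjoin k {w}) : K) * t ^ i) := by
        intro i hi
        rw [← ha i (Finset.mem_range.1 hi)]
        ring
      rw [Finset.sum_congr rfl h1, ← Finset.mul_sum]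
      have h2 : ∑ i ∈ Finset.range (r + 1), ((p.coeff i : IntermediateField.adjoin k {w}) : K) *
          t ^ i = Polynomial.aeval t p := by
        rw [Polynomial.aeval_eq_sum_range]
        refine Finset.sum_congr rfl fun i _ => ?_
        rw [Algebra.smul_def]
        rfl
      rw [h2, hp, minpoly.aeval, mul_zero]
  · -- algebraic case
    have halg : IsAlgebraic k φ := by
      unfold Transcendental at hφ
      exact not_not.1 hφ
    obtain ⟨c, hc⟩ : ∃ c : k, algebraMap k K c = φ := by
      have h1 : (minpoly k φ).degree = 1 :=
        IsAlgClosed.degree_eq_one_of_irreducible k (minpoly.irreducible halg.isIntegral)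
      exact minpoly.mem_range_of_degree_eq_one k φ h1
    refine ⟨0, fun n => ⟨Polynomial.X - Polynomial.C (Polynomial.C c),
      Polynomial.X_sub_C_ne_zero _, fun j => ?_, ?_⟩⟩
    · rw [zero_mul, Polynomial.coeff_sub, Polynomial.coeff_X, Polynomial.coeff_C]
      split_ifs <;> simp
    · have h1 : τ^[n] φ = algebraMap k K c := by
        rw [← hc]
        induction n with
        | zero => rfl
        | succ n ih => rw [Function.iterate_succ_apply', ih, AlgHom.commutes]
      rw [h1]
      simp

end Pool.Agent.H77.TD
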